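import Mathlib

/-!
# Designs: linear functionals which vanish on local collisions, over every field
-/

open Finset

namespace Pool.Agent.H84.SP

variable {k : ℕ}

/-- `f` depends only on the coordinates in `T`. -/
def DepOn {H K : Type} (T : Finset (Fin k)) (f : (Fin k → H) → K) : Prop :=
  ∀ y y' : Fin k → H, (∀ i ∈ T, y i = y' i) → f y = f y'

/-- There is a linear functional of mass one on the functions on `H^k` which kills all functions
of at most `D` coordinates supported on a collision. -/
def Design (F : Type*) [Field F] (k D : ℕ) (H : Type) : Prop :=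
  ∃ L : ((Fin k → H) → F) →ₗ[F] F, L (fun _ => 1) = 1 ∧
    ∀ (T : Finset (Fin k)) (f : (Fin k → H) → F) (a b : Fin k),
      T.card ≤ D → (∀ y y' : Fin k → H, (∀ i ∈ T, y i = y' i) → f y = f y') →
      a ∈ T → b ∈ T → a ≠ b → (∀ y, f y ≠ 0 → y a = y b) → L f = 0

theorem design_one (F : Type*) [Field F] (k : ℕ) : Design F k 1 Unit := by
  refine ⟨LinearMap.proj (fun _ => ()), rfl, ?_⟩
  intro T f a b hT _ ha hb hab _
  exact absurd (Finset.card_le_one.mp hT a ha b hb) hab

/-- replace the coordinates in `S` by new labels -/
private def md {H : Type} {j : ℕ} (g : Fin k → Fin j) (S : Finset (Fin k)) (z : Fin k → H) :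
    Fin k → H ⊕ Fin j :=
  fun i => if i ∈ S then Sum.inr (g i) else Sum.inl (z i)

private theorem md_empty {H : Type} {j : ℕ} (g : Fin k → Fin j) (z : Fin k → H) :
    md g ∅ z = fun i => Sum.inl (z i) := by
  funext i; simp [md]

private theorem exists_g (j : ℕ) (T : Finset (Fin k)) (hj : 1 ≤ j) :
    ∃ g : Fin k → Fin j, T.card = j → Set.InjOn g (T : Set (Fin k)) := by
  classical
  by_cases h : T.card = j
  · have e := T.equivFinOfCardEq h
    refine ⟨fun i => if hi : i ∈ T then e ⟨i, hi⟩ else ⟨0, hj⟩, fun _ => ?_⟩
    intro a ha b hb hab
    have ha' : a ∈ T := ha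
    have hb' : b ∈ T := hb
    simp only [ha', hb', dif_pos] at hab
    have := e.injective hab
    exact congrArg Subtype.val this
  · exact ⟨fun _ => ⟨0, hj⟩, fun h' => absurd h' h⟩

theorem design_step {F : Type*} [Field F] {k D : ℕ} {H : Type} (hD : Design F k D H)
    (j : ℕ) (hj : 1 ≤ j) (hc : ((Nat.choose (D + 1) j : ℕ) : F) ≠ 0) :
    Design F k (D + 1) (H ⊕ Fin j) := by
  classical
  obtain ⟨L, hL1, hL⟩ := hD
  choose g hg using fun T : Finset (Fin k) => exists_g j T hj
  set c : F := -((Nat.choose (D + 1) j : ℕ) : F)⁻¹ with hcdef
  let pull (T S : Finset (Fin k)) : ((Fin k → H ⊕ Fin j) → F) →ₗ[F] ((Fin k → H) → F) :=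
    LinearMap.funLeft F F (fun z => md (g T) S z)
  let E : ((Fin k → H ⊕ Fin j) → F) →ₗ[F] ((Fin k → H) → F) :=
    pull ∅ ∅ + c • ∑ T ∈ powersetCard j (univ : Finset (Fin k)),
      ∑ S ∈ T.powerset, ((-1 : F) ^ S.card) • pull T S
  have pull_apply : ∀ T S f z, pull T S f z = f (md (g T) S z) := fun _ _ _ _ => rfl
  have hE : ∀ f, E f = pull ∅ ∅ f + c • ∑ T ∈ powersetCard j (univ : Finset (Fin k)),
      ∑ S ∈ T.powerset, ((-1 : F) ^ S.card) • pull T S f := by
    intro f
    simp only [E, LinearMap.add_apply, LinearMap.smul_apply, LinearMap.sum_apply]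
  have pull_empty : ∀ T f, pull T ∅ f = pull ∅ ∅ f := by
    intro T f
    funext z
    rw [pull_apply, pull_apply, md_empty, md_empty]
  refine ⟨L ∘ₗ E, ?_, ?_⟩
  · rw [LinearMap.comp_apply, hE]
    have h1 : ∀ T S, pull T S (fun _ => (1 : F)) = fun _ => 1 := fun _ _ => rfl
    simp only [h1]
    have h2 : ∀ T ∈ powersetCard j (univ : Finset (Fin k)),
        ∑ S ∈ T.powerset, ((-1 : F) ^ S.card) • (fun _ : Fin k → H => (1 : F)) = 0 := by
      intro T hT
      rw [← Finset.sum_smul]
      have hne : T.Nonempty := by
        rw [← Finset.card_pos, (mem_powersetCard.mp hT).2]; omega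
      have := Finset.sum_powerset_neg_one_pow_card_of_nonempty hne
      have h3 : (∑ S ∈ T.powerset, (-1 : F) ^ S.card) = 0 := by
        have := congrArg (Int.cast : ℤ → F) this
        push_cast at this
        exact this
      rw [h3, zero_smul]
    rw [Finset.sum_congr rfl h2, Finset.sum_const_zero, smul_zero, add_zero, hL1]
  · intro T0 f a b hT0 hdep ha hb hab hsupp
    rw [LinearMap.comp_apply, hE, map_add, map_smul, map_sum]
    -- terms with `T ⊄ T0`
    have hout : ∀ T ∈ powersetCard j (univ : Finset (Fin k)), ¬ T ⊆ T0 →
        ∑ S ∈ T.powerset, ((-1 : F) ^ S.card) • pull T S f = 0 := by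
      intro T _ hT
      obtain ⟨t, htT, ht0⟩ := Finset.not_subset.mp hT
      rw [← Finset.insert_erase htT, Finset.sum_powerset_insert (Finset.notMem_erase t T),
        ← Finset.sum_add_distrib]
      refine Finset.sum_eq_zero fun S hS => ?_
      have htS : t ∉ S := fun h => Finset.notMem_erase t T (Finset.mem_powerset.mp hS h)
      rw [Finset.card_insert_of_notMem htS, Finset.insert_erase htT]
      have : pull T (insert t S) f = pull T S f := by
        funext z
        rw [pull_apply, pull_apply]
        refine hdep _ _ fun i hi => ?_
        have : i ≠ t := fun h => ht0 (h ▸ hi)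
        simp [md, this]
      rw [this, pow_succ]
      module
    -- terms with `T ⊆ T0`
    have hin : ∀ T ∈ powersetCard j (univ : Finset (Fin k)), T ⊆ T0 →
        L (∑ S ∈ T.powerset, ((-1 : F) ^ S.card) • pull T S f) = L (pull ∅ ∅ f) := by
      intro T hTj hT
      rw [map_sum]
      rw [Finset.sum_eq_single (∅ : Finset (Fin k))]
      · rw [Finset.card_empty, pow_zero, one_smul, pull_empty]
      · intro S hS hSne
        rw [map_smul]
        have hST : S ⊆ T := Finset.mem_powerset.mp hS
        have hinj := hg T (mem_powersetCard.mp hTj).2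
        by_cases hab' : a ∉ S ∧ b ∉ S
        · have : L (pull T S f) = 0 := by
            refine hL (T0 \ S) _ a b ?_ ?_ (Finset.mem_sdiff.mpr ⟨ha, hab'.1⟩)
              (Finset.mem_sdiff.mpr ⟨hb, hab'.2⟩) hab ?_
            · have h1 : (T0 \ S).card < T0.card := by
                apply Finset.card_lt_card
                refine ⟨Finset.sdiff_subset, fun h => ?_⟩
                obtain ⟨x, hx⟩ := Finset.nonempty_iff_ne_empty.mpr hSne
                have := h (hT (hST hx))
                exact (Finset.mem_sdiff.mp this).2 hx
              omega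
            · intro y y' hy
              rw [pull_apply, pull_apply]
              refine hdep _ _ fun i hi => ?_
              by_cases hiS : i ∈ S
              · simp [md, hiS]
              · simp only [md, hiS, if_false]
                rw [hy i (Finset.mem_sdiff.mpr ⟨hi, hiS⟩)]
            · intro y hy
              rw [pull_apply] at hy
              have := hsupp _ hy
              simp only [md, hab'.1, hab'.2, if_false] at this
              exact Sum.inl.inj this
          rw [this, smul_zero]
        · have : pull T S f = 0 := by
            funext z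
            rw [pull_apply, Pi.zero_apply]
            by_contra hne
            have := hsupp _ hne
            by_cases haS : a ∈ S
            · by_cases hbS : b ∈ S
              · simp only [md, haS, hbS, if_true] at this
                exact hab (hinj (hST haS) (hST hbS) (Sum.inr.inj this))
              · simp [md, haS, hbS] at this
            · by_cases hbS : b ∈ S
              · simp [md, haS, hbS] at this
              · exact hab' ⟨haS, hbS⟩
          rw [this, map_zero, smul_zero]
      · intro h
        exact absurd (Finset.empty_mem_powerset T) h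
    have hsum : ∑ T ∈ powersetCard j (univ : Finset (Fin k)),
        L (∑ S ∈ T.powerset, ((-1 : F) ^ S.card) • pull T S f)
        = ((Nat.choose T0.card j : ℕ) : F) * L (pull ∅ ∅ f) := by
      have h1 : ∀ T ∈ powersetCard j (univ : Finset (Fin k)),
          L (∑ S ∈ T.powerset, ((-1 : F) ^ S.card) • pull T S f)
          = if T ⊆ T0 then L (pull ∅ ∅ f) else 0 := by
        intro T hT
        split_ifs with h
        · exact hin T hT h
        · rw [hout T hT h, map_zero]
      rw [Finset.sum_congr rfl h1, ← Finset.sum_filter, Finset.sum_const, nsmul_eq_mul]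
      congr 2
      rw [← Finset.card_powersetCard]
      congr 1
      ext T
      simp only [mem_filter, mem_powersetCard, subset_univ, true_and]
      tauto
    rw [hsum]
    by_cases hlt : T0.card ≤ D
    · have : L (pull ∅ ∅ f) = 0 := by
        refine hL T0 _ a b hlt ?_ ha hb hab ?_
        · intro y y' hy
          rw [pull_apply, pull_apply]
          refine hdep _ _ fun i hi => ?_
          simp only [md, Finset.notMem_empty, if_false]
          rw [hy i hi]
        · intro y hy
          rw [pull_apply] at hy
          have := hsupp _ hy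
          simp only [md, Finset.notMem_empty, if_false] at this
          exact Sum.inl.inj this
      rw [this]; simp
    · have : T0.card = D + 1 := by omega
      rw [this, hcdef, smul_eq_mul]
      field_simp
      ring

end Pool.Agent.H84.SP
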