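import Mathlib
import Pool.Agent.H84.SP.Design

/-!
# Existence of designs with few labels, over every field
-/

open Finset

namespace Pool.Agent.H84.SP

private theorem choose_pow (p : ℕ) (hp : p.Prime) (u : ℕ) :
    ∀ v : ℕ, Nat.choose (p ^ v * u) (p ^ v) ≡ u [MOD p] := by
  have := Fact.mk hp
  intro v
  induction v with
  | zero => simp [Nat.ModEq.refl]
  | succ v ih =>
    have h := Choose.choose_modEq_choose_mod_mul_choose_div_nat (n := p ^ (v + 1) * u)
      (k := p ^ (v + 1)) (p := p)
    have h1 : p ^ (v + 1) * u = p * (p ^ v * u) := by ring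
    have h2 : p ^ (v + 1) = p * p ^ v := by ring
    rw [h1, h2, Nat.mul_mod_right, Nat.mul_mod_right, Nat.mul_div_cancel_left _ hp.pos,
      Nat.mul_div_cancel_left _ hp.pos] at h
    rw [h1, h2]
    refine h.trans ?_
    simpa using ih

theorem choose_ne_zero (F : Type*) [Field F] (p : ℕ) [CharP F p] (n : ℕ) (hn : 0 < n) :
    ((Nat.choose n (p ^ padicValNat p n) : ℕ) : F) ≠ 0 := by
  intro h
  rw [CharP.cast_eq_zero_iff F p] at h
  rcases CharP.char_is_prime_or_zero F p with hp | hp
  · have := Fact.mk hp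
    obtain ⟨u, hu⟩ := pow_padicValNat_dvd (p := p) (n := n)
    have h1 := choose_pow p hp u (padicValNat p n)
    rw [← hu] at h1
    have h2 : p ∣ u := by
      have := (Nat.ModEq.dvd_iff h1 (dvd_refl p)).mp h
      exact this
    have h3 : p ^ (padicValNat p n + 1) ∣ n := by
      obtain ⟨w, hw⟩ := h2
      refine ⟨w, ?_⟩
      conv_lhs => rw [hu, hw]
      ring
    exact pow_succ_padicValNat_not_dvd hn.ne' h3
  · subst hp
    rw [zero_dvd_iff] at h
    rcases Nat.eq_zero_or_pos (padicValNat 0 n) with h0 | h0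
    · rw [h0, pow_zero, Nat.choose_one_right] at h
      omega
    · rw [zero_pow h0.ne', Nat.choose_zero_right] at h
      omega

theorem sum_val_le (p : ℕ) (hp : p.Prime ∨ p = 0) (D : ℕ) :
    ∑ i ∈ Ioc 0 D, p ^ padicValNat p i ≤ D * (1 + Nat.log p D) := by
  rcases hp with hp | hp
  · have := Fact.mk hp
    have h1 : ∀ i ∈ Ioc 0 D, p ^ padicValNat p i ≤
        ∑ a ∈ range (Nat.log p D + 1), if p ^ a ∣ i then p ^ a else 0 := by
      intro i hi
      have hi' := Finset.mem_Ioc.mp hi
      have hv : padicValNat p i ≤ Nat.log p D := by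
        refine Nat.le_log_of_pow_le hp.one_lt ?_
        exact (Nat.le_of_dvd hi'.1 pow_padicValNat_dvd).trans hi'.2
      refine le_trans (b := if p ^ padicValNat p i ∣ i then p ^ padicValNat p i else 0) ?_ ?_
      · rw [if_pos pow_padicValNat_dvd]
      · exact Finset.single_le_sum (f := fun a => if p ^ a ∣ i then p ^ a else 0)
          (fun _ _ => Nat.zero_le _) (Finset.mem_range.mpr (by omega))
    refine (Finset.sum_le_sum h1).trans ?_
    rw [Finset.sum_comm]
    have h2 : ∀ a ∈ range (Nat.log p D + 1),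
        (∑ i ∈ Ioc 0 D, if p ^ a ∣ i then p ^ a else 0) ≤ D := by
      intro a _
      rw [← Finset.sum_filter, Finset.sum_const, Nat.Ioc_filter_dvd_card_eq_div, smul_eq_mul]
      exact Nat.div_mul_le_self _ _
    refine (Finset.sum_le_sum h2).trans ?_
    rw [Finset.sum_const, card_range, smul_eq_mul]
    exact le_of_eq (by ring)
  · subst hp
    have h1 : ∀ i ∈ Ioc 0 D, (0 : ℕ) ^ padicValNat 0 i ≤ 1 := by
      intro i _
      exact pow_le_one₀ (le_refl 0) (by norm_num)
    refine (Finset.sum_le_sum h1).trans ?_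
    simp

theorem exists_design (F : Type*) [Field F] (p : ℕ) [CharP F p] (k D : ℕ) (hD : 1 ≤ D) :
    ∃ (H : Type) (_ : Fintype H), Fintype.card H ≤ D * (1 + Nat.log p D) ∧ Design F k D H := by
  have key : ∀ d : ℕ, ∃ (H : Type) (_ : Fintype H),
      Fintype.card H = ∑ i ∈ Ioc 0 (d + 1), p ^ padicValNat p i ∧ Design F k (d + 1) H := by
    intro d
    induction d with
    | zero =>
      refine ⟨Unit, inferInstance, ?_, design_one F k⟩
      have h : Ioc 0 (0 + 1) = {1} := rfl
      rw [h, Finset.sum_singleton]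
      simp
    | succ d ih =>
      obtain ⟨H, hH, hcard, hdes⟩ := ih
      have hne := choose_ne_zero F p (d + 1 + 1) (by omega)
      have h1 : 1 ≤ p ^ padicValNat p (d + 1 + 1) := by
        rcases CharP.char_is_prime_or_zero F p with hp | hp
        · exact Nat.one_le_pow _ _ hp.pos
        · subst hp
          have : padicValNat 0 (d + 1 + 1) = 0 := by
            simp [padicValNat]
          rw [this, pow_zero]
      refine ⟨H ⊕ Fin (p ^ padicValNat p (d + 1 + 1)), inferInstance, ?_,
        design_step hdes _ h1 hne⟩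
      rw [Fintype.card_sum, hcard, Fintype.card_fin]
      have : Ioc 0 (d + 1 + 1) = insert (d + 1 + 1) (Ioc 0 (d + 1)) := by
        ext x; simp only [mem_Ioc, mem_insert]; omega
      rw [this, Finset.sum_insert (by simp)]
      ring
  obtain ⟨H, hH, hcard, hdes⟩ := key (D - 1)
  rw [Nat.sub_add_cancel hD] at hcard hdes
  exact ⟨H, hH, hcard ▸ sum_val_le p (CharP.char_is_prime_or_zero F p) D, hdes⟩

end Pool.Agent.H84.SP
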