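import Mathlib

/-!
# Monotone span programs for clique: definitions
-/

namespace Pool.Agent.H84.SP

/-- A monotone span program over the field `F` whose inputs are the graphs with vertex set
`Fin n`: `s` row vectors in `F^dim`, each labelled with a pair of vertices, and a target
vector.  The number `s` of rows is its size. -/
structure SpanProgram (F : Type*) [Field F] (n s : ℕ) where
  /-- dimension of the ambient space -/
  dim : ℕ
  /-- target vector -/
  target : Fin dim → F
  /-- row vectors -/
  row : Fin s → Fin dim → F
  /-- the pair of vertices which labels a row -/
  pair : Fin s → Sym2 (Fin n)

/-- The program accepts the graph `G` if the target lies in the span of the rows whose label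
is an edge of `G`. -/
def SpanProgram.Accepts {F : Type*} [Field F] {n s : ℕ} (P : SpanProgram F n s)
    (G : SimpleGraph (Fin n)) : Prop :=
  P.target ∈ Submodule.span F (P.row '' {a | P.pair a ∈ G.edgeSet})

end Pool.Agent.H84.SP
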