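import Mathlib

/-!
# Gadgets: colours hidden in bit strings
-/

open Finset

namespace Pool.Agent.H84.SP

open Classical in
/-- A gadget: a partial colouring `gam` of the subsets of `Fin r` by `H` and weights `P` such
that each colour has total weight one and such that fewer than `d` positions carry no
information on the colour. -/
def Gadget (F : Type*) [Field F] (r d : ℕ) (H : Type) (gam : Finset (Fin r) → Option H)
    (P : Finset (Fin r) → F) : Prop :=
  (∀ B : Finset (Fin r), B.card < d → ∃ ρ : F, ∀ y : H,
    ∑ z : Finset (Fin r), (if gam z = some y ∧ Disjoint z B then P z else 0) = ρ) ∧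
  (∀ y : H, ∑ z : Finset (Fin r), (if gam z = some y then P z else 0) = 1)

end Pool.Agent.H84.SP
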