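import Mathlib
import Pool.Agent.H84.SP.Design
import Pool.Agent.H84.SP.Gadget

/-!
# The weight function of a design and a gadget
-/

open Finset

namespace Pool.Agent.H84.SP

variable {k r : ℕ}

/-- The block `l` of a set of positions. -/
def blk {k r : ℕ} (Z : Finset (Fin k × Fin r)) (l : Fin k) : Finset (Fin r) :=
  univ.filter fun c => (l, c) ∈ Z

theorem mem_blk {k r : ℕ} (Z : Finset (Fin k × Fin r)) (l : Fin k) (c : Fin r) :
    c ∈ blk Z l ↔ (l, c) ∈ Z := by simp [blk]

/-- The function `Φ` on bit strings: total mass one with signs, and low degree on collisions. -/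
def GoodPhi2 {F : Type*} [Field F] (k r d D : ℕ) {H : Type} (gam : Finset (Fin r) → Option H)
    (Φ : Finset (Fin k × Fin r) → F) : Prop :=
  (∑ Z : Finset (Fin k × Fin r), (-1 : F) ^ Z.card * Φ Z = 1) ∧
  ∀ i j : Fin k, i ≠ j → ∀ t t' : Finset (Fin r),
    (∀ y y', gam t = some y → gam t' = some y' → y = y') →
    ∃ κ : Finset (Fin k × Fin r) → F,
    (∀ U, κ U ≠ 0 → U.card + d * (D - 1) ≤ (k - 2) * r) ∧
    ∀ Z : Finset (Fin k × Fin r), blk Z i = t → blk Z j = t' →
      Φ Z = ∑ U : Finset (Fin k × Fin r), if U ⊆ Z then κ U else 0

private def blkEquiv (k r : ℕ) : Finset (Fin k × Fin r) ≃ (Fin k → Finset (Fin r)) where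
  toFun Z := fun l => blk Z l
  invFun p := univ.filter fun b => b.2 ∈ p b.1
  left_inv Z := by
    ext b
    simp [mem_blk]
  right_inv p := by
    funext l
    ext c
    simp [mem_blk]

private theorem card_eq (Z : Finset (Fin k × Fin r)) : Z.card = ∑ l, (blk Z l).card := by
  classical
  have h := Finset.card_eq_sum_card_fiberwise (s := Z) (t := univ) (f := Prod.fst)
    (fun _ _ => Finset.mem_coe.mpr (Finset.mem_univ _))
  rw [h]
  refine Finset.sum_congr rfl fun l _ => ?_
  refine Finset.card_bij (fun b _ => b.2) ?_ ?_ ?_
  · intro b hb
    rw [Finset.mem_filter] at hb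
    rw [mem_blk, ← hb.2]
    exact hb.1
  · intro b hb b' hb' h
    rw [Finset.mem_filter] at hb hb'
    exact Prod.ext (hb.2.trans hb'.2.symm) h
  · intro c hc
    rw [mem_blk] at hc
    exact ⟨(l, c), Finset.mem_filter.mpr ⟨hc, rfl⟩, rfl⟩

private theorem subset_iff (U Z : Finset (Fin k × Fin r)) :
    U ⊆ Z ↔ ∀ l, blk U l ⊆ blk Z l := by
  constructor
  · intro h l c hc
    rw [mem_blk] at hc ⊢
    exact h hc
  · rintro h ⟨l, c⟩ hb
    exact (mem_blk Z l c).mp (h l ((mem_blk U l c).mpr hb))

private theorem sum_prod {F : Type*} [Field F] (g : Fin k → Finset (Fin r) → F) :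
    ∑ Z : Finset (Fin k × Fin r), ∏ l, g l (blk Z l) = ∏ l, ∑ z : Finset (Fin r), g l z := by
  classical
  rw [Finset.prod_univ_sum, Fintype.piFinset_univ]
  exact Fintype.sum_equiv (blkEquiv k r) _ _ fun Z => rfl

private theorem mobius {F : Type*} [Field F] (G : Finset (Fin r) → F) (z : Finset (Fin r)) :
    ∑ u : Finset (Fin r), (if u ⊆ z then (-1 : F) ^ u.card *
      ∑ v : Finset (Fin r), (if Disjoint v uᶜ then G v else 0) else 0) = (-1 : F) ^ z.card * G z := by
  classical
  have h1 : ∀ v : Finset (Fin r), ∑ u : Finset (Fin r), (if u ⊆ z then (-1 : F) ^ u.card *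
      (if Disjoint v uᶜ then 1 else 0) else 0) = if v = z then (-1 : F) ^ z.card else 0 := by
    intro v
    have hprod : ∏ c ∈ (univ : Finset (Fin r)),
        ((if c ∈ z then (-1 : F) else 0) + (if c ∈ v then 0 else 1)) =
        ∑ u ∈ (univ : Finset (Fin r)).powerset, (if u ⊆ z then (-1 : F) ^ u.card *
          (if Disjoint v uᶜ then 1 else 0) else 0) := by
      rw [Finset.prod_add]
      refine Finset.sum_congr rfl fun u _ => ?_
      by_cases hu : u ⊆ z
      · rw [if_pos hu]
        congr 1
        · rw [Finset.prod_congr rfl (g := fun _ => (-1 : F)) (fun b hb => if_pos (hu hb)),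
            Finset.prod_const]
        · split_ifs with h
          · refine Finset.prod_eq_one fun b hb => if_neg fun hbv => ?_
            exact (Finset.disjoint_left.mp h hbv) (Finset.mem_compl.mpr
              (Finset.mem_sdiff.mp hb).2)
          · rw [Finset.not_disjoint_iff] at h
            obtain ⟨c, hc, hc'⟩ := h
            exact Finset.prod_eq_zero (Finset.mem_sdiff.mpr
              ⟨Finset.mem_univ c, Finset.mem_compl.mp hc'⟩) (if_pos hc)
      · rw [if_neg hu]
        obtain ⟨b, hb, hbZ⟩ := Finset.not_subset.mp hu
        rw [Finset.prod_eq_zero hb (if_neg hbZ), zero_mul]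
    rw [Finset.powerset_univ] at hprod
    rw [← hprod]
    split_ifs with hv
    · subst hv
      have h2 : ∀ c ∈ (univ : Finset (Fin r)),
          ((if c ∈ v then (-1 : F) else 0) + (if c ∈ v then 0 else 1)) =
          if c ∈ v then (-1 : F) else 1 := by
        intro c _
        split_ifs <;> simp
      rw [Finset.prod_congr rfl h2, Finset.prod_ite, Finset.prod_const, Finset.prod_const_one,
        mul_one]
      congr 2
      ext c; simp
    · have : ∃ c, ¬ (c ∈ v ↔ c ∈ z) := by
        by_contra hcon
        push Not at hcon
        exact hv (Finset.ext hcon)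
      obtain ⟨c, hc⟩ := this
      apply Finset.prod_eq_zero (Finset.mem_univ c)
      by_cases h1 : c ∈ v
      · have h2 : c ∉ z := fun h => hc ⟨fun _ => h, fun _ => h1⟩
        simp [h1, h2]
      · have h2 : c ∈ z := by
          by_contra h
          exact hc ⟨fun h' => absurd h' h1, fun h' => absurd h' h⟩
        simp [h1, h2]
  have h2 : ∀ u : Finset (Fin r), (if u ⊆ z then (-1 : F) ^ u.card *
      ∑ v : Finset (Fin r), (if Disjoint v uᶜ then G v else 0) else 0) =
      ∑ v : Finset (Fin r), G v * (if u ⊆ z then (-1 : F) ^ u.card *
        (if Disjoint v uᶜ then 1 else 0) else 0) := by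
    intro u
    split_ifs with hu
    · rw [Finset.mul_sum]
      refine Finset.sum_congr rfl fun v _ => ?_
      split_ifs <;> ring
    · simp
  simp only [h2]
  rw [Finset.sum_comm]
  simp only [← Finset.mul_sum, h1]
  simp [mul_comm]

theorem exists_phi2 {F : Type*} [Field F] {d D : ℕ} {H : Type} (hDes : Design F k D H)
    {gam : Finset (Fin r) → Option H} {P : Finset (Fin r) → F}
    (hG : Gadget F r d H gam P) :
    ∃ Φ : Finset (Fin k × Fin r) → F, GoodPhi2 k r d D gam Φ := by
  classical
  obtain ⟨L, hL1, hL⟩ := hDes
  obtain ⟨hG1, hG2⟩ := hG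
  -- block weights
  let w : H → Finset (Fin r) → F := fun y z => if gam z = some y then P z else 0
  have hw0 : ∀ y z, w y z ≠ 0 → gam z = some y := by
    intro y z h
    by_contra hne
    exact h (if_neg hne)
  have hw1 : ∀ y, ∑ z, w y z = 1 := by
    intro y
    have := hG2 y
    simp only [w]
    convert this
  have hw2 : ∀ B : Finset (Fin r), B.card < d → ∀ y y' : H,
      ∑ v : Finset (Fin r), (if Disjoint v B then w y v else 0) =
      ∑ v : Finset (Fin r), (if Disjoint v B then w y' v else 0) := by
    intro B hB y y'
    obtain ⟨ρ, hρ⟩ := hG1 B hB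
    have h1 : ∀ y, ∑ v : Finset (Fin r), (if Disjoint v B then w y v else 0) = ρ := by
      intro y
      rw [← hρ y]
      refine Finset.sum_congr rfl fun v _ => ?_
      by_cases h1 : gam v = some y <;> by_cases h2 : Disjoint v B <;> simp [w, h1, h2]
    rw [h1, h1]
  refine ⟨fun Z => L (fun y => ∏ l, ((-1 : F) ^ (blk Z l).card * w (y l) (blk Z l))), ?_, ?_⟩
  · have h1 : ∀ Z : Finset (Fin k × Fin r), (-1 : F) ^ Z.card *
        L (fun y => ∏ l, ((-1 : F) ^ (blk Z l).card * w (y l) (blk Z l))) =
        L (fun y => ∏ l, w (y l) (blk Z l)) := by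
      intro Z
      rw [← smul_eq_mul, ← map_smul]
      congr 1
      funext y
      rw [Pi.smul_apply, smul_eq_mul, Finset.prod_mul_distrib, Finset.prod_pow_eq_pow_sum,
        ← card_eq, ← mul_assoc, ← pow_add, ← two_mul, pow_mul]
      simp
    simp only [h1]
    have h2 : (∑ Z : Finset (Fin k × Fin r),
        (fun y : Fin k → H => ∏ l, w (y l) (blk Z l))) = fun _ => 1 := by
      funext y
      rw [Finset.sum_apply, sum_prod (fun l z => w (y l) z)]
      simp [hw1]
    rw [← map_sum, h2, hL1]
  · intro i j hij t t' htt
    let h : (Fin k → H) → Fin k → Finset (Fin r) → F := fun y l u =>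
      if l = i then (if u = ∅ then (-1 : F) ^ t.card * w (y l) t else 0)
      else if l = j then (if u = ∅ then (-1 : F) ^ t'.card * w (y l) t' else 0)
      else (-1 : F) ^ u.card * ∑ v : Finset (Fin r), (if Disjoint v uᶜ then w (y l) v else 0)
    refine ⟨fun U => L (fun y => ∏ l, h y l (blk U l)), ?_, ?_⟩
    · intro U hU
      beta_reduce at hU
      have hUi : blk U i = ∅ := by
        by_contra hne
        apply hU
        have : (fun y => ∏ l, h y l (blk U l)) = 0 := by
          funext y
          refine Finset.prod_eq_zero (Finset.mem_univ i) ?_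
          simp [h, hne]
        rw [this, map_zero]
      have hUj : blk U j = ∅ := by
        by_contra hne
        apply hU
        have : (fun y => ∏ l, h y l (blk U l)) = 0 := by
          funext y
          refine Finset.prod_eq_zero (Finset.mem_univ j) ?_
          simp [h, hne, hij.symm]
        rw [this, map_zero]
      set R : Finset (Fin k) := (univ.erase i).erase j with hR
      have hRcard : R.card = k - 2 := by
        rw [hR, card_erase_of_mem (by simp [hij.symm]), card_erase_of_mem (mem_univ _)]
        simp only [card_univ, Fintype.card_fin]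
        omega
      set T1 : Finset (Fin k) := R.filter fun l => d ≤ ((blk U l)ᶜ).card with hT1
      have hT1card : D - 1 ≤ T1.card := by
        by_contra hcon
        push Not at hcon
        apply hU
        refine hL (insert i (insert j T1)) _ i j ?_ ?_ (by simp) (by simp) hij ?_
        · have h1 := Finset.card_insert_le i (insert j T1)
          have h2 := Finset.card_insert_le j T1
          omega
        · intro y y' hyy
          refine Finset.prod_congr rfl fun l _ => ?_
          by_cases hli : l = i
          · have := hyy l (by simp [hli])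
            simp only [h, hli, if_true]
            rw [hli] at this
            rw [this]
          · by_cases hlj : l = j
            · have := hyy l (by simp [hlj])
              simp only [h, hli, if_false, hlj, if_true]
              rw [hlj] at this
              rw [this]
            · simp only [h, hli, if_false, hlj]
              by_cases hl : l ∈ T1
              · rw [hyy l (by simp [hl])]
              · have hlR : l ∈ R := by simp [hR, hli, hlj]
                have hlt : ((blk U l)ᶜ).card < d := by
                  by_contra hge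
                  push Not at hge
                  exact hl (Finset.mem_filter.mpr ⟨hlR, hge⟩)
                rw [hw2 _ hlt (y l) (y' l)]
        · intro y hy
          have hi := Finset.prod_ne_zero_iff.mp hy i (Finset.mem_univ i)
          have hj := Finset.prod_ne_zero_iff.mp hy j (Finset.mem_univ j)
          simp only [h, if_true, hUi, ne_eq, mul_eq_zero, not_or] at hi
          simp only [h, hij.symm, if_false, if_true, hUj, ne_eq, mul_eq_zero, not_or] at hj
          exact htt _ _ (hw0 _ _ hi.2) (hw0 _ _ hj.2)
      have h1 : d * (D - 1) ≤ ∑ l ∈ R, ((blk U l)ᶜ).card := by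
        calc d * (D - 1) ≤ d * T1.card := Nat.mul_le_mul_left _ hT1card
          _ = ∑ l ∈ T1, d := by rw [Finset.sum_const, smul_eq_mul, mul_comm]
          _ ≤ ∑ l ∈ T1, ((blk U l)ᶜ).card :=
              Finset.sum_le_sum fun l hl => (Finset.mem_filter.mp hl).2
          _ ≤ ∑ l ∈ R, ((blk U l)ᶜ).card :=
              Finset.sum_le_sum_of_subset (Finset.filter_subset _ _)
      have h2 : U.card = ∑ l ∈ R, (blk U l).card := by
        rw [card_eq]
        symm
        refine Finset.sum_subset (Finset.subset_univ _) fun l _ hl => ?_
        have : l = i ∨ l = j := by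
          by_contra hcon
          push Not at hcon
          exact hl (by simp [hR, hcon.1, hcon.2])
        rcases this with rfl | rfl
        · rw [hUi]; rfl
        · rw [hUj]; rfl
      have h3 : (k - 2) * r = ∑ l ∈ R, ((blk U l).card + ((blk U l)ᶜ).card) := by
        have : ∀ l ∈ R, (blk U l).card + ((blk U l)ᶜ).card = r := by
          intro l _
          rw [Finset.card_add_card_compl, Fintype.card_fin]
        rw [Finset.sum_congr rfl this, Finset.sum_const, smul_eq_mul, hRcard]
      rw [h3, Finset.sum_add_distrib, h2]
      omega
    · intro Z hZi hZj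
      beta_reduce
      have h1 : ∀ y : Fin k → H, ∑ U : Finset (Fin k × Fin r),
          (if U ⊆ Z then ∏ l, h y l (blk U l) else 0) =
          ∏ l, ((-1 : F) ^ (blk Z l).card * w (y l) (blk Z l)) := by
        intro y
        have h2 : ∀ U : Finset (Fin k × Fin r), (if U ⊆ Z then ∏ l, h y l (blk U l) else 0) =
            ∏ l, (if blk U l ⊆ blk Z l then h y l (blk U l) else 0) := by
          intro U
          split_ifs with hs
          · refine Finset.prod_congr rfl fun l _ => ?_
            rw [if_pos ((subset_iff U Z).mp hs l)]
          · rw [subset_iff] at hs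
            push Not at hs
            obtain ⟨l, hl⟩ := hs
            symm
            exact Finset.prod_eq_zero (Finset.mem_univ l) (if_neg hl)
        simp only [h2]
        rw [sum_prod (fun l u => if u ⊆ blk Z l then h y l u else 0)]
        refine Finset.prod_congr rfl fun l _ => ?_
        by_cases hli : l = i
        · rw [Finset.sum_eq_single (∅ : Finset (Fin r))]
          · simp only [h, hli, if_true, Finset.empty_subset, hZi]
          · intro u _ hu
            simp [h, hli, hu]
          · intro hmem
            exact absurd (Finset.mem_univ _) hmem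
        · by_cases hlj : l = j
          · rw [Finset.sum_eq_single (∅ : Finset (Fin r))]
            · simp only [h, hli, if_false, hlj, hij.symm, if_true, Finset.empty_subset, hZj]
            · intro u _ hu
              simp [h, hij.symm, hlj, hu]
            · intro hmem
              exact absurd (Finset.mem_univ _) hmem
          · simp only [h, hli, hlj, if_false]
            exact mobius (fun v => w (y l) v) (blk Z l)
      have h3 : (fun y => ∏ l, ((-1 : F) ^ (blk Z l).card * w (y l) (blk Z l))) =
          ∑ U : Finset (Fin k × Fin r), (if U ⊆ Z then (1 : F) else 0) •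
            (fun y => ∏ l, h y l (blk U l)) := by
        funext y
        rw [← h1 y, Finset.sum_apply]
        refine Finset.sum_congr rfl fun U _ => ?_
        rw [Pi.smul_apply, smul_eq_mul]
        split_ifs <;> simp
      rw [h3, map_sum]
      refine Finset.sum_congr rfl fun U _ => ?_
      rw [map_smul, smul_eq_mul]
      split_ifs <;> simp

end Pool.Agent.H84.SP
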