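import Mathlib
import Pool.Agent.H84.SP.Phi2

/-!
# The rank argument
-/

open Finset

namespace Pool.Agent.H84.SP

variable {k r : ℕ}

/-- evaluation of a labelling at a pointer vector -/
def ev {k r m : ℕ} (lam : Finset ((Fin k × Fin r) × Fin m)) (x : Fin k × Fin r → Fin m) :
    Finset (Fin k × Fin r) := univ.filter fun b => (b, x b) ∈ lam

theorem mem_ev {k r m : ℕ} (lam : Finset ((Fin k × Fin r) × Fin m))
    (x : Fin k × Fin r → Fin m) (b : Fin k × Fin r) : b ∈ ev lam x ↔ (b, x b) ∈ lam := by
  simp [ev]

private theorem indep {F : Type*} [Field F] {m : ℕ} (Φ : Finset (Fin k × Fin r) → F)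
    (hΦ : ∑ Z : Finset (Fin k × Fin r), (-1 : F) ^ Z.card * Φ Z = 1) :
    LinearIndependent F (fun (x : Fin k × Fin r → Fin m)
      (lam : Finset ((Fin k × Fin r) × Fin m)) => Φ (ev lam x)) := by
  classical
  rw [Fintype.linearIndependent_iff]
  intro c hc x0
  have h1 : ∀ lam : Finset ((Fin k × Fin r) × Fin m), ∑ x, c x * Φ (ev lam x) = 0 := by
    intro lam
    have := congrFun hc lam
    simpa [Finset.sum_apply] using this
  let lm : Finset (Fin k × Fin r) → Finset ((Fin k × Fin r) × Fin m) :=
    fun Z => Z.image fun b => (b, x0 b)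
  have hlm : ∀ Z x b, b ∈ ev (lm Z) x ↔ b ∈ Z ∧ x b = x0 b := by
    intro Z x b
    rw [mem_ev]
    simp only [lm, mem_image, Prod.mk.injEq]
    constructor
    · rintro ⟨a, ha, rfl, h⟩
      exact ⟨ha, h.symm⟩
    · rintro ⟨h, h'⟩
      exact ⟨b, h, rfl, h'.symm⟩
  have h2 : ∑ Z : Finset (Fin k × Fin r), (-1 : F) ^ Z.card * ∑ x, c x * Φ (ev (lm Z) x) = 0 := by
    refine Finset.sum_eq_zero fun Z _ => ?_
    rw [h1, mul_zero]
  have h3 : ∑ Z : Finset (Fin k × Fin r), (-1 : F) ^ Z.card * ∑ x, c x * Φ (ev (lm Z) x) =
      ∑ x, c x * ∑ Z : Finset (Fin k × Fin r), (-1 : F) ^ Z.card * Φ (ev (lm Z) x) := by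
    simp only [Finset.mul_sum]
    rw [Finset.sum_comm]
    refine Finset.sum_congr rfl fun x _ => Finset.sum_congr rfl fun Z _ => ?_
    ring
  rw [h3] at h2
  rw [Finset.sum_eq_single x0] at h2
  · have h4 : ∀ Z, ev (lm Z) x0 = Z := by
      intro Z
      ext b
      rw [hlm]
      simp
    simp only [h4] at h2
    rwa [hΦ, mul_one] at h2
  · intro x _ hx
    have : ∃ b0, x b0 ≠ x0 b0 := by
      by_contra h
      push Not at h
      exact hx (funext h)
    obtain ⟨b0, hb0⟩ := this
    have hz : ∑ Z : Finset (Fin k × Fin r), (-1 : F) ^ Z.card * Φ (ev (lm Z) x) = 0 := by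
      rw [← Finset.powerset_univ, ← Finset.insert_erase (Finset.mem_univ b0),
        Finset.sum_powerset_insert (Finset.notMem_erase b0 _), ← Finset.sum_add_distrib]
      refine Finset.sum_eq_zero fun Z hZ => ?_
      have hb : b0 ∉ Z := fun h => Finset.notMem_erase b0 _ (Finset.mem_powerset.mp hZ h)
      have h5 : ev (lm (insert b0 Z)) x = ev (lm Z) x := by
        ext b
        rw [hlm, hlm]
        constructor
        · rintro ⟨h, h'⟩
          rcases Finset.mem_insert.mp h with h | h
          · exact absurd (h ▸ h') hb0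
          · exact ⟨h, h'⟩
        · rintro ⟨h, h'⟩
          exact ⟨Finset.mem_insert_of_mem h, h'⟩
      rw [h5, Finset.card_insert_of_notMem hb, pow_succ]
      ring
    rw [hz, mul_zero]
  · intro h
    exact absurd (Finset.mem_univ _) h

/-- The counting bound. -/
theorem count_bound2 {F : Type*} [Field F] {m s d D N : ℕ} (hm : 1 ≤ m) {H : Type}
    {gam : Finset (Fin r) → Option H}
    (Φ : Finset (Fin k × Fin r) → F) (hΦ : GoodPhi2 k r d D gam Φ)
    (hN : N + d * (D - 1) = (k - 2) * r)
    (cf : Fin s → (Fin k × Fin r → Fin m) → F)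
    (df : Fin s → Finset ((Fin k × Fin r) × Fin m) → F)
    (hJ : ∀ x lam, ∑ a, cf a x * df a lam = 1)
    (hcd : ∀ a, (∀ x, cf a x = 0) ∨ ∃ (i j : Fin k) (u u' : Fin r → Fin m), i ≠ j ∧
      (∀ x, cf a x ≠ 0 → (∀ c, x (i, c) = u c) ∧ (∀ c, x (j, c) = u' c)) ∧
      (∀ lam, df a lam ≠ 0 → ∀ y y' : H,
        gam (univ.filter fun c => ((i, c), u c) ∈ lam) = some y →
        gam (univ.filter fun c => ((j, c), u' c) ∈ lam) = some y' → y = y')) :
    m ^ (k * r) ≤ s * 2 ^ ((k + 2) * r) * m ^ N := by
  classical
  set A : (Fin k × Fin r → Fin m) → (Finset ((Fin k × Fin r) × Fin m) → F) :=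
    fun x lam => Φ (ev lam x) with hA
  have hind : LinearIndependent F A := indep Φ hΦ.1
  have hcd' : ∀ a, ∃ (i j : Fin k) (u u' : Fin r → Fin m), (∀ x, cf a x = 0) ∨ (i ≠ j ∧
      (∀ x, cf a x ≠ 0 → (∀ c, x (i, c) = u c) ∧ (∀ c, x (j, c) = u' c)) ∧
      (∀ lam, df a lam ≠ 0 → ∀ y y' : H,
        gam (univ.filter fun c => ((i, c), u c) ∈ lam) = some y →
        gam (univ.filter fun c => ((j, c), u' c) ∈ lam) = some y' → y = y')) := by
    intro a
    rcases hcd a with h | ⟨i, j, u, u', h⟩
    · by_cases hk : Nonempty (Fin k)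
      · obtain ⟨i⟩ := hk
        exact ⟨i, i, fun _ => ⟨0, hm⟩, fun _ => ⟨0, hm⟩, Or.inl h⟩
      · exfalso
        have hx : IsEmpty (Fin k) := not_nonempty_iff.mp hk
        have hall : ∀ a', ∀ x, cf a' x = 0 := by
          intro a'
          rcases hcd a' with h' | ⟨i, _⟩
          · exact h'
          · exact hx.elim i
        have h1 := hJ (fun _ => ⟨0, hm⟩) ∅
        simp only [hall, zero_mul, Finset.sum_const_zero] at h1
        exact zero_ne_one h1
    · exact ⟨i, j, u, u', Or.inr h⟩
  choose pi pj pu pu' hp using hcd'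
  let I := Fin s × (Finset (Fin r) × Finset (Fin r)) ×
    (Σ U : {U : Finset (Fin k × Fin r) // U.card ≤ N}, ({b // b ∈ U.1} → Fin m))
  let labi : Fin s → Finset ((Fin k × Fin r) × Fin m) → Finset (Fin r) :=
    fun a lam => univ.filter fun c => ((pi a, c), pu a c) ∈ lam
  let labj : Fin s → Finset ((Fin k × Fin r) × Fin m) → Finset (Fin r) :=
    fun a lam => univ.filter fun c => ((pj a, c), pu' a c) ∈ lam
  let v : I → (Finset ((Fin k × Fin r) × Fin m) → F) := fun q lam =>
    df q.1 lam * ((if labi q.1 lam = q.2.1.1 ∧ labj q.1 lam = q.2.1.2 then 1 else 0) *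
      (if ∀ b : {b // b ∈ q.2.2.1.1}, (b.1, q.2.2.2 b) ∈ lam then 1 else 0))
  have hmem : ∀ x, A x ∈ Submodule.span F (Set.range v) := by
    intro x
    have h1 : A x = ∑ a, (fun lam => cf a x * df a lam * Φ (ev lam x)) := by
      funext lam
      rw [Finset.sum_apply, ← Finset.sum_mul, hJ, one_mul]
    rw [h1]
    refine Submodule.sum_mem _ fun a _ => ?_
    rcases hp a with h | ⟨hij, hx, hl⟩
    · have : (fun lam => cf a x * df a lam * Φ (ev lam x)) = 0 := by
        funext lam
        rw [h x, zero_mul, zero_mul]; rfl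
      rw [this]
      exact Submodule.zero_mem _
    · by_cases hc0 : cf a x = 0
      · have : (fun lam => cf a x * df a lam * Φ (ev lam x)) = 0 := by
          funext lam
          rw [hc0, zero_mul, zero_mul]; rfl
        rw [this]
        exact Submodule.zero_mem _
      · obtain ⟨hxi, hxj⟩ := hx x hc0
        have hex : ∀ t t' : Finset (Fin r), ∃ κ : Finset (Fin k × Fin r) → F,
            (∀ U, κ U ≠ 0 → U.card ≤ N) ∧
            ((∀ y y', gam t = some y → gam t' = some y' → y = y') →
            ∀ Z : Finset (Fin k × Fin r), blk Z (pi a) = t → blk Z (pj a) = t' →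
              Φ Z = ∑ U : Finset (Fin k × Fin r), if U ⊆ Z then κ U else 0) := by
          intro t t'
          by_cases hgood : ∀ y y', gam t = some y → gam t' = some y' → y = y'
          · obtain ⟨κ, hκ1, hκ2⟩ := hΦ.2 (pi a) (pj a) hij t t' hgood
            exact ⟨κ, fun U hU => by have := hκ1 U hU; omega, fun _ => hκ2⟩
          · exact ⟨0, fun U hU => absurd rfl hU, fun h => absurd h hgood⟩
        choose κ hκ1 hκ2 using hex
        have h2 : (fun lam => cf a x * df a lam * Φ (ev lam x)) =
            ∑ t : Finset (Fin r) × Finset (Fin r), ∑ U : Finset (Fin k × Fin r),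
              (cf a x * κ t.1 t.2 U) •
              (fun lam : Finset ((Fin k × Fin r) × Fin m) =>
                df a lam * ((if labi a lam = t.1 ∧ labj a lam = t.2 then (1 : F) else 0) *
                (if U ⊆ ev lam x then 1 else 0))) := by
          funext lam
          simp only [Finset.sum_apply, Pi.smul_apply, smul_eq_mul]
          by_cases hd : df a lam = 0
          · rw [hd]; simp
          · have e1 : blk (ev lam x) (pi a) = labi a lam := by
              ext c
              rw [mem_blk, mem_ev, hxi c]
              simp [labi]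
            have e2 : blk (ev lam x) (pj a) = labj a lam := by
              ext c
              rw [mem_blk, mem_ev, hxj c]
              simp [labj]
            rw [Finset.sum_eq_single (labi a lam, labj a lam)]
            · rw [hκ2 (labi a lam) (labj a lam) (hl lam hd) (ev lam x) e1 e2, Finset.mul_sum]
              refine Finset.sum_congr rfl fun U _ => ?_
              rw [if_pos (show labi a lam = labi a lam ∧ labj a lam = labj a lam from
                ⟨rfl, rfl⟩)]
              split_ifs <;> ring
            · intro t _ ht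
              refine Finset.sum_eq_zero fun U _ => ?_
              have e3 : ¬ (labi a lam = t.1 ∧ labj a lam = t.2) := by
                intro h
                exact ht (Prod.ext h.1.symm h.2.symm)
              rw [if_neg e3]
              ring
            · intro h
              exact absurd (Finset.mem_univ _) h
        rw [h2]
        refine Submodule.sum_mem _ fun t _ => Submodule.sum_mem _ fun U _ => ?_
        by_cases hκ0 : κ t.1 t.2 U = 0
        · rw [hκ0, mul_zero, zero_smul]
          exact Submodule.zero_mem _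
        · have hU : U.card ≤ N := hκ1 t.1 t.2 U hκ0
          refine Submodule.smul_mem _ _ (Submodule.subset_span ?_)
          refine ⟨(a, t, ⟨⟨U, hU⟩, fun b => x b.1⟩), ?_⟩
          funext lam
          simp only [v]
          congr 2
          have : (∀ b : {b // b ∈ U}, (b.1, x b.1) ∈ lam) ↔ U ⊆ ev lam x := by
            constructor
            · intro h b hb
              exact (mem_ev lam x b).mpr (h ⟨b, hb⟩)
            · intro h b
              exact (mem_ev lam x b.1).mp (h b.2)
          simp only [this]
  -- dimension count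
  have hcardI : Fintype.card I ≤ s * 2 ^ ((k + 2) * r) * m ^ N := by
    have h1 : Fintype.card (Σ U : {U : Finset (Fin k × Fin r) // U.card ≤ N},
        ({b // b ∈ U.1} → Fin m)) ≤ 2 ^ (k * r) * m ^ N := by
      rw [Fintype.card_sigma]
      have h2 : ∀ U : {U : Finset (Fin k × Fin r) // U.card ≤ N},
          Fintype.card ({b // b ∈ U.1} → Fin m) ≤ m ^ N := by
        intro U
        rw [Fintype.card_fun, Fintype.card_fin, Fintype.card_coe]
        exact Nat.pow_le_pow_right hm U.2
      refine (Finset.sum_le_sum fun U _ => h2 U).trans ?_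
      rw [Finset.sum_const, smul_eq_mul, Finset.card_univ]
      refine Nat.mul_le_mul_right _ ?_
      have h3 := Fintype.card_subtype_le (fun U : Finset (Fin k × Fin r) => U.card ≤ N)
      rw [Fintype.card_finset, Fintype.card_prod, Fintype.card_fin, Fintype.card_fin] at h3
      exact h3
    have h4 : Fintype.card I = s * ((2 ^ r * 2 ^ r) * Fintype.card
        (Σ U : {U : Finset (Fin k × Fin r) // U.card ≤ N}, ({b // b ∈ U.1} → Fin m))) := by
      simp only [I, Fintype.card_prod, Fintype.card_fin, Fintype.card_finset]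
    rw [h4]
    calc s * ((2 ^ r * 2 ^ r) * _) ≤ s * ((2 ^ r * 2 ^ r) * (2 ^ (k * r) * m ^ N)) := by gcongr
      _ = s * 2 ^ ((k + 2) * r) * m ^ N := by rw [add_mul, two_mul, pow_add, pow_add]; ring
  have hfin : Fintype.card (Fin k × Fin r → Fin m) ≤ Fintype.card I := by
    let A' : (Fin k × Fin r → Fin m) → Submodule.span F (Set.range v) := fun x => ⟨A x, hmem x⟩
    have hind' : LinearIndependent F A' := by
      apply LinearIndependent.of_comp (Submodule.span F (Set.range v)).subtype
      exact hind
    have : Module.Finite F (Submodule.span F (Set.range v)) :=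
      FiniteDimensional.span_of_finite F (Set.finite_range v)
    exact hind'.fintype_card_le_finrank.trans (finrank_range_le_card v)
  rw [Fintype.card_fun, Fintype.card_fin, Fintype.card_prod, Fintype.card_fin,
    Fintype.card_fin] at hfin
  exact hfin.trans hcardI

end Pool.Agent.H84.SP
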