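import Mathlib
import Pool.Agent.H84.SP.Defs
import Pool.Agent.H84.SP.Count
import Pool.Agent.H84.SP.Key2
import Pool.Agent.H74.Des.Design
import Pool.Agent.H97.MSP.Gad

/-!
# Lower bounds for monotone span programs for gap clique
-/

open Finset

universe u v

namespace Pool.Agent.H84.SP

private theorem coeffs {F : Type*} [Field F] {n s : ℕ} (P : SpanProgram F n s)
    (G : SimpleGraph (Fin n)) (h : P.Accepts G) :
    ∃ c : Fin s → F, (∀ a, c a ≠ 0 → P.pair a ∈ G.edgeSet) ∧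
      ∑ a, c a • P.row a = P.target := by
  obtain ⟨l, hl, hx⟩ := (Finsupp.mem_span_image_iff_linearCombination F).mp h
  refine ⟨l, ?_, ?_⟩
  · intro a ha
    exact (Finsupp.mem_supported F l).mp hl (Finsupp.mem_support_iff.mpr ha)
  · rw [← hx, Finsupp.linearCombination_apply, Finsupp.sum_fintype _ _ (by simp)]

private theorem functional {F : Type*} [Field F] {n s : ℕ} (P : SpanProgram F n s)
    (G : SimpleGraph (Fin n)) (h : ¬ P.Accepts G) :
    ∃ φ : (Fin P.dim → F) →ₗ[F] F, φ P.target = 1 ∧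
      ∀ a, φ (P.row a) ≠ 0 → P.pair a ∉ G.edgeSet := by
  obtain ⟨f, hf, hker⟩ := Submodule.exists_le_ker_of_notMem h
  refine ⟨(f P.target)⁻¹ • f, ?_, ?_⟩
  · rw [LinearMap.smul_apply, smul_eq_mul, inv_mul_cancel₀ hf]
  · intro a ha hG
    apply ha
    have : f (P.row a) = 0 := by
      have h1 : P.row a ∈ Submodule.span F (P.row '' {a | P.pair a ∈ G.edgeSet}) :=
        Submodule.subset_span ⟨a, hG, rfl⟩
      exact LinearMap.mem_ker.mp (hker h1)
    rw [LinearMap.smul_apply, this, smul_zero]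

private theorem bound_m2 {F : Type u} [Field F] {K : Type v} [Field K] [Algebra F K]
    {n s k r d D m : ℕ} {H : Type} [Fintype H] [Nonempty H] {gam : Finset (Fin r) → Option H}
    {Pw : Finset (Fin r) → K}
    (P : SpanProgram F n s) (hdes : Design K k D H) (hG : Gadget K r d H gam Pw)
    (hD : 1 ≤ D) (hDk : D < k) (hdr : d ≤ r) (hm : 1 ≤ m) (hn : k * m ^ r ≤ n)
    (hacc : ∀ G : SimpleGraph (Fin n), ¬ G.CliqueFree k → P.Accepts G)
    (hrej : ∀ G : SimpleGraph (Fin n), G.Colorable (Fintype.card H) → ¬ P.Accepts G) :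
    m ^ (2 * r + d * (D - 1)) ≤ s * 2 ^ ((k + 2) * r) := by
  classical
  have hk2 : 2 ≤ k := by omega
  have hDN : d * (D - 1) ≤ (k - 2) * r := by
    rw [mul_comm (k - 2) r]
    exact Nat.mul_le_mul hdr (by omega)
  obtain ⟨Φ, hΦ⟩ := exists_phi2 hdes hG
  -- the vertices
  have hcardV : Fintype.card (Fin k × (Fin r → Fin m)) ≤ Fintype.card (Fin n) := by
    rw [Fintype.card_prod, Fintype.card_fun, Fintype.card_fin, Fintype.card_fin,
      Fintype.card_fin, Fintype.card_fin]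
    exact hn
  obtain ⟨emb⟩ := Function.Embedding.nonempty_of_card_le hcardV
  have : Nonempty (Fin k × (Fin r → Fin m)) := ⟨(⟨0, by omega⟩, fun _ => ⟨0, hm⟩)⟩
  obtain ⟨dec, hdec⟩ := emb.injective.hasLeftInverse
  -- positive inputs
  let S : (Fin k × Fin r → Fin m) → SimpleGraph (Fin n) := fun x =>
    { Adj := fun v w => v ≠ w ∧ (∃ i, v = emb (i, fun c => x (i, c))) ∧
        (∃ i, w = emb (i, fun c => x (i, c)))
      symm := ⟨fun v w h => ⟨h.1.symm, h.2.2, h.2.1⟩⟩
      loopless := ⟨fun v h => h.1 rfl⟩ }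
  have hS : ∀ x, ¬ (S x).CliqueFree k := by
    intro x hfree
    have hinj : Function.Injective fun i : Fin k => emb (i, fun c => x (i, c)) := by
      intro i j hij
      have := emb.injective hij
      exact (Prod.mk.inj this).1
    refine hfree (univ.image fun i : Fin k => emb (i, fun c => x (i, c))) ⟨?_, ?_⟩
    · intro v hv w hw hvw
      obtain ⟨i, _, hi⟩ := Finset.mem_image.mp hv
      obtain ⟨j, _, hj⟩ := Finset.mem_image.mp hw
      exact ⟨hvw, ⟨i, hi.symm⟩, ⟨j, hj.symm⟩⟩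
    · rw [Finset.card_image_of_injective _ hinj, Finset.card_univ, Fintype.card_fin]
  -- negative inputs
  let lab : Finset ((Fin k × Fin r) × Fin m) → (Fin k × (Fin r → Fin m)) → Finset (Fin r) :=
    fun lam q => univ.filter fun c => ((q.1, c), q.2 c) ∈ lam
  let T : Finset ((Fin k × Fin r) × Fin m) → SimpleGraph (Fin n) := fun lam =>
    { Adj := fun v w => ∃ y y', gam (lab lam (dec v)) = some y ∧
        gam (lab lam (dec w)) = some y' ∧ y ≠ y'
      symm := ⟨fun v w ⟨y, y', h1, h2, h3⟩ => ⟨y', y, h2, h1, h3.symm⟩⟩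
      loopless := ⟨fun v ⟨y, y', h1, h2, h3⟩ => h3 (Option.some.inj (h1.symm.trans h2))⟩ }
  have hT : ∀ lam, (T lam).Colorable (Fintype.card H) := by
    intro lam
    obtain ⟨y0⟩ := (inferInstance : Nonempty H)
    have hcol : (T lam).Coloring H :=
      SimpleGraph.Coloring.mk (fun v => (gam (lab lam (dec v))).getD y0) (by
        rintro v w ⟨y, y', h1, h2, h3⟩
        rw [h1, h2]
        exact h3)
    exact hcol.colorable
  choose cf hcf1 hcf2 using fun x => coeffs P (S x) (hacc _ (hS x))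
  choose φ hφ1 hφ2 using fun lam => functional P (T lam) (hrej _ (hT lam))
  have hinj : Function.Injective (algebraMap F K) := (algebraMap F K).injective
  have hcount := count_bound2 (s := s) (m := m) (N := (k - 2) * r - d * (D - 1)) hm Φ hΦ
    (by omega) (fun a x => algebraMap F K (cf x a))
    (fun a lam => algebraMap F K (φ lam (P.row a))) ?_ ?_
  · have hexp : k * r = ((k - 2) * r - d * (D - 1)) + (2 * r + d * (D - 1)) := by
      have : k * r = (k - 2) * r + 2 * r := by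
        rw [← add_mul]; congr 1; omega
      omega
    rw [hexp, pow_add, mul_comm] at hcount
    exact Nat.le_of_mul_le_mul_right hcount (Nat.pow_pos hm)
  · intro x lam
    have h1 := congrArg (φ lam) (hcf2 x)
    rw [map_sum, hφ1] at h1
    rw [← map_one (algebraMap F K), ← h1, map_sum]
    refine Finset.sum_congr rfl fun a _ => ?_
    rw [map_smul, smul_eq_mul, map_mul]
  · intro a
    by_cases hall : ∀ x, cf x a = 0
    · left
      intro x
      rw [hall x, map_zero]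
    · push Not at hall
      obtain ⟨x0, hx0⟩ := hall
      right
      have hmem := hcf1 x0 a hx0
      obtain ⟨v, w, hvw⟩ : ∃ v w, P.pair a = s(v, w) := by
        induction P.pair a using Sym2.ind with
        | _ v w => exact ⟨v, w, rfl⟩
      rw [hvw, SimpleGraph.mem_edgeSet] at hmem
      obtain ⟨hne, ⟨i, hi⟩, ⟨j, hj⟩⟩ := hmem
      have hij : i ≠ j := by
        rintro rfl
        exact hne (hi.trans hj.symm)
      refine ⟨i, j, fun c => x0 (i, c), fun c => x0 (j, c), hij, ?_, ?_⟩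
      · intro x hx
        have hx' : cf x a ≠ 0 := fun h => hx (by rw [h, map_zero])
        have hmem := hcf1 x a hx'
        rw [hvw, SimpleGraph.mem_edgeSet] at hmem
        obtain ⟨_, ⟨i', hi'⟩, ⟨j', hj'⟩⟩ := hmem
        have h1 := emb.injective (hi.symm.trans hi')
        have h2 := emb.injective (hj.symm.trans hj')
        have h3 := (Prod.mk.inj h1)
        have h4 := (Prod.mk.inj h2)
        refine ⟨fun c => ?_, fun c => ?_⟩
        · have := congrFun h3.2 c
          rw [h3.1] at this ⊢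
          exact this.symm
        · have := congrFun h4.2 c
          rw [h4.1] at this ⊢
          exact this.symm
      · intro lam hlam y y' hy hy'
        have hlam' : φ lam (P.row a) ≠ 0 := fun h => hlam (by rw [h, map_zero])
        have h1 := hφ2 lam a hlam'
        rw [hvw, SimpleGraph.mem_edgeSet] at h1
        by_contra hyy
        apply h1
        refine ⟨y, y', ?_, ?_, hyy⟩
        · rw [hi, hdec]; exact hy
        · rw [hj, hdec]; exact hy'

/-- The lower bound given a design and a gadget over an extension field. -/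
theorem lower_bound2 (k r d D : ℕ) (hr : 1 ≤ r) (hD : 1 ≤ D) (hDk : D < k) (hdr : d ≤ r) :
    ∃ C : ℕ, ∀ (F : Type u) [Field F] (K : Type v) [Field K] [Algebra F K]
      (H : Type) [Fintype H] [Nonempty H] (gam : Finset (Fin r) → Option H)
      (Pw : Finset (Fin r) → K) (n s : ℕ) (P : SpanProgram F n s),
      Design K k D H → Gadget K r d H gam Pw → k ≤ n →
      (∀ G : SimpleGraph (Fin n), ¬ G.CliqueFree k → P.Accepts G) →
      (∀ G : SimpleGraph (Fin n), G.Colorable (Fintype.card H) → ¬ P.Accepts G) →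
      n ^ (2 * r + d * (D - 1)) ≤ C * s ^ r := by
  refine ⟨(k * 2 ^ r) ^ (2 * r + d * (D - 1)) * (2 ^ ((k + 2) * r)) ^ r, ?_⟩
  intro F _ K _ _ H _ _ gam Pw n s P hdes hG hn hacc hrej
  have hex : ∃ m, n < k * (m + 1) ^ r := by
    refine ⟨n, ?_⟩
    have h1 : n + 1 ≤ (n + 1) ^ r := Nat.le_self_pow (by omega) _
    calc n < n + 1 := Nat.lt_succ_self n
      _ ≤ (n + 1) ^ r := h1
      _ = 1 * (n + 1) ^ r := (one_mul _).symm
      _ ≤ k * (n + 1) ^ r := Nat.mul_le_mul_right _ (by omega)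
  set m := Nat.find hex with hmdef
  have hm1 : n < k * (m + 1) ^ r := Nat.find_spec hex
  have hm : 1 ≤ m := by
    by_contra hlt
    have hm0 : m = 0 := by omega
    rw [hm0] at hm1
    simp at hm1
    omega
  have hm2 : k * m ^ r ≤ n := by
    have := Nat.find_min hex (m := m - 1) (by omega)
    rw [Nat.sub_add_cancel hm] at this
    omega
  have hb := bound_m2 P hdes hG hD hDk hdr hm hm2 hacc hrej
  set g := 2 * r + d * (D - 1) with hg
  calc n ^ g ≤ (k * (m + 1) ^ r) ^ g := Nat.pow_le_pow_left hm1.le g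
    _ ≤ (k * (2 * m) ^ r) ^ g := by
        gcongr
        omega
    _ = (k * 2 ^ r) ^ g * (m ^ g) ^ r := by
        rw [mul_pow 2 m r, ← mul_assoc, mul_pow (k * 2 ^ r) (m ^ r) g, ← pow_mul, ← pow_mul,
          mul_comm r g]
    _ ≤ (k * 2 ^ r) ^ g * (s * 2 ^ ((k + 2) * r)) ^ r := by gcongr
    _ = (k * 2 ^ r) ^ g * (2 ^ ((k + 2) * r)) ^ r * s ^ r := by
        rw [mul_pow s]; ring

/-- designs over every field -/
theorem design_all (F : Type u) [Field F] (k D : ℕ) (H : Type) [Fintype H]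
    (hD : 1 ≤ D) (hH : 2 * D ≤ Fintype.card H + 1) : Design F k D H := by
  classical
  obtain ⟨w, hw1, hw2⟩ := Pool.Agent.H74.Des.exists_design (F := F) (ι := Fin k) (H := H) D hD hH
  refine ⟨∑ y, w y • LinearMap.proj y, ?_, ?_⟩
  · rw [LinearMap.sum_apply]
    simpa using hw1
  · intro T f a b hT hdep ha hb hab hsupp
    have := hw2 T hT a ha b hb hab f hdep hsupp
    rw [LinearMap.sum_apply]
    simpa using this

private theorem ratio_two {n s C D r d g : ℕ} (_hr : 1 ≤ r) (hrd : r + 1 = 2 * d)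
    (hg : g = 2 * r + d * (D - 1)) (hD : 1 ≤ D) (hn : 1 ≤ n) (h : n ^ g ≤ C * s ^ r) :
    n ^ (D + 3) ≤ C ^ 2 * s ^ 2 := by
  have h1 : (n ^ (D + 3)) ^ r ≤ (C ^ 2 * s ^ 2) ^ r := by
    obtain ⟨E, rfl⟩ : ∃ E, D = E + 1 := ⟨D - 1, by omega⟩
    have h2 : (E + 1 + 3) * r ≤ g * 2 := by
      rw [hg, Nat.add_sub_cancel]
      have : d * E * 2 = (r + 1) * E := by rw [hrd]; ring
      nlinarith
    calc (n ^ (E + 1 + 3)) ^ r = n ^ ((E + 1 + 3) * r) := by rw [pow_mul]
      _ ≤ n ^ (g * 2) := Nat.pow_le_pow_right hn h2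
      _ = (n ^ g) ^ 2 := by rw [pow_mul]
      _ ≤ (C * s ^ r) ^ 2 := Nat.pow_le_pow_left h 2
      _ = C ^ 2 * (s ^ 2) ^ r := by rw [mul_pow, ← pow_mul, ← pow_mul, mul_comm r 2]
      _ ≤ (C ^ 2) ^ r * (s ^ 2) ^ r := Nat.mul_le_mul_right _ (Nat.le_self_pow (by omega) _)
      _ = (C ^ 2 * s ^ 2) ^ r := by rw [mul_pow]
  exact (Nat.pow_le_pow_iff_left (by omega)).mp h1

private theorem ratio_three {n s C D r d g : ℕ} (_hr : 1 ≤ r) (hrd : r + 1 = 3 * d)
    (hg : g = 2 * r + d * (D - 1)) (hD : 1 ≤ D) (hn : 1 ≤ n) (h : n ^ g ≤ C * s ^ r) :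
    n ^ (D + 5) ≤ C ^ 3 * s ^ 3 := by
  have h1 : (n ^ (D + 5)) ^ r ≤ (C ^ 3 * s ^ 3) ^ r := by
    obtain ⟨E, rfl⟩ : ∃ E, D = E + 1 := ⟨D - 1, by omega⟩
    have h2 : (E + 1 + 5) * r ≤ g * 3 := by
      rw [hg, Nat.add_sub_cancel]
      have : d * E * 3 = (r + 1) * E := by rw [hrd]; ring
      nlinarith
    calc (n ^ (E + 1 + 5)) ^ r = n ^ ((E + 1 + 5) * r) := by rw [pow_mul]
      _ ≤ n ^ (g * 3) := Nat.pow_le_pow_right hn h2
      _ = (n ^ g) ^ 3 := by rw [pow_mul]
      _ ≤ (C * s ^ r) ^ 3 := Nat.pow_le_pow_left h 3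
      _ = C ^ 3 * (s ^ 3) ^ r := by rw [mul_pow, ← pow_mul, ← pow_mul, mul_comm r 3]
      _ ≤ (C ^ 3) ^ r * (s ^ 3) ^ r := Nat.mul_le_mul_right _ (Nat.le_self_pow (by omega) _)
      _ = (C ^ 3 * s ^ 3) ^ r := by rw [mul_pow]
  exact (Nat.pow_le_pow_iff_left (by omega)).mp h1

private theorem pow_half (l : ℕ) (hl : 1 ≤ l) (a : ℕ) (ha : 1 ≤ a) :
    a ^ l - 1 + 1 = a * a ^ (l - 1) := by
  have h1 : 1 ≤ a ^ l := Nat.one_le_pow _ _ ha
  rw [Nat.sub_add_cancel h1]
  conv_lhs => rw [← Nat.sub_add_cancel hl]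
  rw [pow_succ, mul_comm]

/-- Characteristic zero or at least `h`. -/
theorem bound_large (k h l : ℕ) (hh : 3 ≤ h) (hk : h ≤ k) (hl : h ≤ 2 ^ l + 1) :
    ∃ C : ℕ, ∀ (F : Type u) [Field F] (n s : ℕ) (P : SpanProgram F n s),
      (ringChar F = 0 ∨ h ≤ ringChar F) → k ≤ n →
      (∀ G : SimpleGraph (Fin n), ¬ G.CliqueFree k → P.Accepts G) →
      (∀ G : SimpleGraph (Fin n), G.Colorable (h - 1) → ¬ P.Accepts G) →
      n ^ (2 * (2 ^ l - 1) + 2 ^ (l - 1) * (h - 2)) ≤ C * s ^ (2 ^ l - 1) := by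
  have hl1 : 1 ≤ l := by
    by_contra hcon
    have : l = 0 := by omega
    subst this
    simp at hl
    omega
  have hp := pow_half l hl1 2 (by norm_num)
  have hp1 : 1 ≤ 2 ^ (l - 1) := Nat.one_le_two_pow
  obtain ⟨C, hC⟩ := lower_bound2 k (2 ^ l - 1) (2 ^ (l - 1)) (h - 1) (by omega) (by omega)
    (by omega) (by omega)
  refine ⟨C, ?_⟩
  intro F _ n s P hF hn hacc hrej
  obtain ⟨H, hH, hcard, hdes⟩ := exists_design F (ringChar F) k (h - 1) (by omega)
  have hlog : Nat.log (ringChar F) (h - 1) = 0 := by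
    rcases hF with h0 | h0
    · rw [h0]; exact Nat.log_of_left_le_one (by omega) _
    · exact Nat.log_of_lt (by omega)
  rw [hlog, add_zero, mul_one] at hcard
  have hne : Nonempty H := by
    by_contra hcon
    rw [not_nonempty_iff] at hcon
    obtain ⟨L, hL1, _⟩ := hdes
    have : IsEmpty (Fin k → H) := ⟨fun y => hcon.elim (y ⟨0, by omega⟩)⟩
    have h0 : (fun _ : Fin k → H => (1 : F)) = 0 := Subsingleton.elim _ _
    rw [h0, map_zero] at hL1
    exact zero_ne_one hL1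
  have h2 : (2 : F) ≠ 0 := by
    intro h0
    have h1 : ((2 : ℕ) : F) = 0 := by exact_mod_cast h0
    rw [ringChar.spec] at h1
    rcases hF with h3 | h3
    · rw [h3, zero_dvd_iff] at h1
      omega
    · have := Nat.le_of_dvd (by norm_num) h1
      omega
  obtain ⟨gam, Pw, hG⟩ := Pool.Agent.H97.MSP.gadget_two F h2 l hl1 H (by omega)
  have := hC F F H gam Pw n s P hdes hG hn hacc
    (fun G hcol => hrej G (hcol.mono hcard))
  rwa [show h - 1 - 1 = h - 2 from by omega] at this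

/-- Odd characteristic (or zero). -/
theorem bound_odd (k h : ℕ) (hh : 3 ≤ h) (hk : h ≤ k) :
    ∃ C : ℕ, ∀ (F : Type u) [Field F] (n s : ℕ) (P : SpanProgram F n s),
      ringChar F ≠ 2 → k ≤ n →
      (∀ G : SimpleGraph (Fin n), ¬ G.CliqueFree k → P.Accepts G) →
      (∀ G : SimpleGraph (Fin n), G.Colorable (h - 1) → ¬ P.Accepts G) →
      n ^ (h / 2 + 3) ≤ C * s ^ 2 := by
  have hl1 : 1 ≤ h := by omega
  have hp := pow_half h hl1 2 (by norm_num)
  have hp1 : 1 ≤ 2 ^ (h - 1) := Nat.one_le_two_pow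
  obtain ⟨C, hC⟩ := lower_bound2 k (2 ^ h - 1) (2 ^ (h - 1)) (h / 2) (by omega) (by omega)
    (by omega) (by omega)
  refine ⟨C ^ 2, ?_⟩
  intro F _ n s P hF hn hacc hrej
  have hdes := design_all F k (h / 2) (Fin (h - 1)) (by omega)
    (by rw [Fintype.card_fin]; omega)
  have hne : Nonempty (Fin (h - 1)) := ⟨⟨0, by omega⟩⟩
  have h2 : (2 : F) ≠ 0 := Ring.two_ne_zero hF
  obtain ⟨gam, Pw, hG⟩ := Pool.Agent.H97.MSP.gadget_two F h2 h hl1 (Fin (h - 1))
    (by rw [Fintype.card_fin]; have := Nat.lt_two_pow_self (n := h); omega)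
  have := hC F F (Fin (h - 1)) gam Pw n s P hdes hG hn hacc
    (fun G hcol => hrej G (by rwa [Fintype.card_fin] at hcol))
  exact ratio_two (by omega) hp rfl (by omega) (by omega) this

/-- Every field. -/
theorem bound_all (k h : ℕ) (hh : 3 ≤ h) (hk : h ≤ k) :
    ∃ C : ℕ, ∀ (F : Type u) [Field F] (n s : ℕ) (P : SpanProgram F n s), k ≤ n →
      (∀ G : SimpleGraph (Fin n), ¬ G.CliqueFree k → P.Accepts G) →
      (∀ G : SimpleGraph (Fin n), G.Colorable (h - 1) → ¬ P.Accepts G) →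
      n ^ (h / 2 + 5) ≤ C * s ^ 3 := by
  obtain ⟨C1, hC1⟩ := bound_odd.{u} k h hh hk
  have hl1 : 1 ≤ h := by omega
  have hp := pow_half h hl1 3 (by norm_num)
  have hp1 : 1 ≤ 3 ^ (h - 1) := Nat.one_le_pow _ _ (by norm_num)
  obtain ⟨C2, hC2⟩ := lower_bound2.{u, u} k (3 ^ h - 1) (3 ^ (h - 1)) (h / 2) (by omega)
    (by omega) (by omega) (by omega)
  refine ⟨C1 ^ 3 + C2 ^ 3, ?_⟩
  intro F _ n s P hn hacc hrej
  by_cases hF : ringChar F = 2
  · let K := AlgebraicClosure F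
    have h2K : (2 : K) = 0 := by
      have h0 : ((2 : ℕ) : F) = 0 := by rw [ringChar.spec, hF]
      have h1 := congrArg (algebraMap F K) h0
      rw [map_natCast, map_zero] at h1
      exact_mod_cast h1
    have h3K : (3 : K) ≠ 0 := by
      have : (3 : K) = 2 + 1 := by norm_num
      rw [this, h2K, zero_add]
      exact one_ne_zero
    obtain ⟨w, hw⟩ : ∃ w : K, w ^ 2 + w + 1 = 0 := by
      have hdeg : (Polynomial.X ^ 2 + Polynomial.X + 1 : Polynomial K).degree ≠ 0 := by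
        have : (Polynomial.X ^ 2 + Polynomial.X + 1 : Polynomial K).degree = 2 := by
          compute_degree!
        rw [this]; decide
      obtain ⟨w, hw⟩ := IsAlgClosed.exists_root _ hdeg
      refine ⟨w, ?_⟩
      simpa [Polynomial.IsRoot] using hw
    have hdes := design_all K k (h / 2) (Fin (h - 1)) (by omega)
      (by rw [Fintype.card_fin]; omega)
    have hne : Nonempty (Fin (h - 1)) := ⟨⟨0, by omega⟩⟩
    obtain ⟨gam, Pw, hG⟩ := Pool.Agent.H97.MSP.gadget_three K w hw h3K h hl1 (Fin (h - 1))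
      (by rw [Fintype.card_fin]; have h9 : h < 3 ^ h := Nat.lt_pow_self (by norm_num); omega)
    have := hC2 F K (Fin (h - 1)) gam Pw n s P hdes hG hn hacc
      (fun G hcol => hrej G (by rwa [Fintype.card_fin] at hcol))
    refine (ratio_three (by omega) hp rfl (by omega) (by omega) this).trans ?_
    exact Nat.mul_le_mul_right _ (Nat.le_add_left _ _)
  · have h1 := hC1 F n s P hF hn hacc hrej
    have hn1 : 1 ≤ n := by omega
    have h2 : (n ^ (h / 2 + 5)) ^ 2 ≤ (C1 ^ 3 * s ^ 3) ^ 2 := by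
      calc (n ^ (h / 2 + 5)) ^ 2 = n ^ ((h / 2 + 5) * 2) := by rw [pow_mul]
        _ ≤ n ^ ((h / 2 + 3) * 3) := Nat.pow_le_pow_right hn1 (by omega)
        _ = (n ^ (h / 2 + 3)) ^ 3 := by rw [pow_mul]
        _ ≤ (C1 * s ^ 2) ^ 3 := Nat.pow_le_pow_left h1 3
        _ = C1 ^ 3 * (s ^ 3) ^ 2 := by rw [mul_pow, ← pow_mul, ← pow_mul]
        _ ≤ (C1 ^ 3) ^ 2 * (s ^ 3) ^ 2 :=
            Nat.mul_le_mul_right _ (Nat.le_self_pow (by norm_num) _)
        _ = (C1 ^ 3 * s ^ 3) ^ 2 := by rw [mul_pow]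
    have h3 := (Nat.pow_le_pow_iff_left (by norm_num)).mp h2
    refine h3.trans ?_
    exact Nat.mul_le_mul_right _ (Nat.le_add_right _ _)

/-- No ratio at all in FPT size. -/
theorem no_ratio2 (ρ : ℕ → ℝ) (hρ : ∀ k, 1 ≤ ρ k)
    (hunb : ∀ B : ℝ, ∃ k : ℕ, B < (k : ℝ) / ρ k) (f : ℕ → ℕ) (c : ℕ) :
    ∃ k n₀ : ℕ, ∀ n, n₀ ≤ n → ∀ (F : Type u) [Field F] (s : ℕ) (P : SpanProgram F n s),
      s ≤ f k * n ^ c →
      ¬ ((∀ G : SimpleGraph (Fin n), ¬ G.CliqueFree k → P.Accepts G) ∧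
        (∀ G : SimpleGraph (Fin n), (∀ K : Finset (Fin n), G.IsClique K →
          (K.card : ℝ) < (k : ℝ) / ρ k) → ¬ P.Accepts G)) := by
  set h := 6 * c + 3 with hh
  obtain ⟨k, hk⟩ := hunb h
  have hkρ : (k : ℝ) / ρ k ≤ k := div_le_self (Nat.cast_nonneg k) (hρ k)
  have hk' : h ≤ k := by
    have : (h : ℝ) < k := lt_of_lt_of_le hk hkρ
    exact_mod_cast this.le
  obtain ⟨C, hC⟩ := bound_all.{u} k h (by omega) hk'
  refine ⟨k, max k (C * (f k) ^ 3 + 1), ?_⟩
  intro n hn F _ s P hs ⟨hacc, hrej⟩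
  have hrej' : ∀ G : SimpleGraph (Fin n), G.Colorable (h - 1) → ¬ P.Accepts G := by
    intro G hG
    apply hrej
    intro K hK
    have hcard : K.card < h := by
      by_contra hcon
      push Not at hcon
      obtain ⟨K', hK', hcard'⟩ := Finset.exists_subset_card_eq hcon
      exact hG.cliqueFree (by omega) K' ⟨hK.subset hK', hcard'⟩
    have : (K.card : ℝ) < (h : ℝ) := by exact_mod_cast hcard
    linarith
  have hmain := hC F n s P (le_trans (le_max_left _ _) hn) hacc hrej'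
  have hn1 : C * (f k) ^ 3 + 1 ≤ n := le_trans (le_max_right _ _) hn
  have hexp : h / 2 + 5 = c * 3 + 6 := by omega
  rw [hexp] at hmain
  have h1 : n ^ (c * 3 + 6) ≤ C * (f k) ^ 3 * n ^ (c * 3) := by
    calc n ^ (c * 3 + 6) ≤ C * s ^ 3 := hmain
      _ ≤ C * (f k * n ^ c) ^ 3 := by gcongr
      _ = C * (f k) ^ 3 * n ^ (c * 3) := by rw [mul_pow, ← pow_mul]; ring
  rw [pow_add, mul_comm] at h1
  have h2 : n ^ 6 ≤ C * (f k) ^ 3 :=
    Nat.le_of_mul_le_mul_right h1 (Nat.pow_pos (by omega))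
  have h3 : n ≤ n ^ 6 := Nat.le_self_pow (by norm_num) n
  omega

end Pool.Agent.H84.SP
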